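import Mathlib

/-!
# Tilings of a minimal `2k × 2k` square by four copies of a polyomino

Q1 is answered in the affirmative for the polyominoes `M` such that the symmetry group of `M` acts
transitively on the corner cells of `M` (the cells of `M` at the corners of its bounding box), no
two of them at distance `2k - 1` along a coordinate axis; in particular for all polyominoes which
contain only one of the corner cells of their bounding boxes.
-/

set_option autoImplicit false

namespace Pool.Agent.Results.MP_c42d5f_co.CornerCells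

open Finset

/-- A cell of the grid (the unit square with the given lower left corner). -/
abbrev Cell := ℤ × ℤ

/-- Two cells share an edge. -/
def Adj (p q : Cell) : Prop :=
  (p.1 = q.1 ∧ (p.2 = q.2 + 1 ∨ q.2 = p.2 + 1)) ∨ (p.2 = q.2 ∧ (p.1 = q.1 + 1 ∨ q.1 = p.1 + 1))

/-- A polyomino: a nonempty finite edge-connected set of cells. -/
def Polyomino (M : Finset Cell) : Prop :=
  M.Nonempty ∧ ∀ p ∈ M, ∀ q ∈ M, Relation.ReflTransGen (fun a b => b ∈ M ∧ Adj a b) p q

/-- The maps on the cells given by the isometries of the plane which map the grid to itself. -/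
def IsIso (f : Cell → Cell) : Prop :=
  ∃ s t u v : ℤ, (s = 1 ∨ s = -1) ∧ (t = 1 ∨ t = -1) ∧
    ((∀ p : Cell, f p = (s * p.1 + u, t * p.2 + v)) ∨
      (∀ p : Cell, f p = (s * p.2 + u, t * p.1 + v)))

/-- `N` is a copy of `M`. -/
def IsCopy (M N : Finset Cell) : Prop := ∃ f, IsIso f ∧ N = M.image f

/-- `T` is a tiling of `R` by copies of `M`. -/
def Tiling (M R : Finset Cell) (T : Finset (Finset Cell)) : Prop :=
  (∀ N ∈ T, IsCopy M N) ∧ (∀ N ∈ T, ∀ N' ∈ T, N ≠ N' → Disjoint N N') ∧ T.biUnion id = R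

/-- `R` is a rectangle. -/
def IsRect (R : Finset Cell) : Prop :=
  ∃ a b c d : ℤ, a < c ∧ b < d ∧ R = Ico a c ×ˢ Ico b d

/-- `P` is a minimal rectangle for `M`: it has a tiling by `M`, and it cannot be cut into two or
more rectangles each of which has a tiling by `M`. -/
def MinimalRect (M P : Finset Cell) : Prop :=
  IsRect P ∧ (∃ T, Tiling M P T) ∧
    ¬ ∃ S : Finset (Finset Cell), 2 ≤ S.card ∧ (∀ R ∈ S, IsRect R ∧ ∃ T, Tiling M R T) ∧
      (∀ R ∈ S, ∀ R' ∈ S, R ≠ R' → Disjoint R R') ∧ S.biUnion id = P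

/-- The `2k × 2k` square. -/
noncomputable def Sq (k : ℕ) : Finset Cell := Ico (0 : ℤ) (2 * k) ×ˢ Ico (0 : ℤ) (2 * k)

/-- The rotation of the `2k × 2k` square by 90 degrees about its centre, on the cells. -/
def rot (k : ℕ) (p : Cell) : Cell := (2 * (k : ℤ) - 1 - p.2, p.1)

/-- `p` is a corner cell of `M`: a cell of `M` which is at a corner of the bounding box of `M`. -/
def IsCorner (M : Finset Cell) (p : Cell) : Prop :=
  p ∈ M ∧ ((∀ q ∈ M, p.1 ≤ q.1) ∨ (∀ q ∈ M, q.1 ≤ p.1)) ∧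
    ((∀ q ∈ M, p.2 ≤ q.2) ∨ (∀ q ∈ M, q.2 ≤ p.2))

/-- No two corner cells are at distance `2k - 1` or more in a coordinate. -/
def Short (k : ℕ) (M : Finset Cell) : Prop :=
  ∀ p q, IsCorner M p → IsCorner M q → p.1 - q.1 < 2 * k - 1 ∧ p.2 - q.2 < 2 * k - 1

/-- The symmetries of `M` act transitively on its corner cells. -/
def Trans (M : Finset Cell) : Prop :=
  ∀ p q, IsCorner M p → IsCorner M q → ∃ f, IsIso f ∧ M.image f = M ∧ f p = q

theorem iso_comp {f g : Cell → Cell} (hf : IsIso f) (hg : IsIso g) : IsIso (g ∘ f) := by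
  obtain ⟨s, t, u, v, hs, ht, h⟩ := hf
  obtain ⟨s', t', u', v', hs', ht', h'⟩ := hg
  rcases h with h | h <;> rcases h' with h' | h'
  · refine ⟨s' * s, t' * t, s' * u + u', t' * v + v', ?_, ?_, Or.inl fun p => ?_⟩
    · rcases hs with rfl | rfl <;> rcases hs' with rfl | rfl <;> simp
    · rcases ht with rfl | rfl <;> rcases ht' with rfl | rfl <;> simp
    · simp only [Function.comp, h, h', Prod.mk.injEq]; constructor <;> ring
  · refine ⟨s' * t, t' * s, s' * v + u', t' * u + v', ?_, ?_, Or.inr fun p => ?_⟩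
    · rcases ht with rfl | rfl <;> rcases hs' with rfl | rfl <;> simp
    · rcases hs with rfl | rfl <;> rcases ht' with rfl | rfl <;> simp
    · simp only [Function.comp, h, h', Prod.mk.injEq]; constructor <;> ring
  · refine ⟨s' * s, t' * t, s' * u + u', t' * v + v', ?_, ?_, Or.inr fun p => ?_⟩
    · rcases hs with rfl | rfl <;> rcases hs' with rfl | rfl <;> simp
    · rcases ht with rfl | rfl <;> rcases ht' with rfl | rfl <;> simp
    · simp only [Function.comp, h, h', Prod.mk.injEq]; constructor <;> ring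
  · refine ⟨s' * t, t' * s, s' * v + u', t' * u + v', ?_, ?_, Or.inl fun p => ?_⟩
    · rcases ht with rfl | rfl <;> rcases hs' with rfl | rfl <;> simp
    · rcases hs with rfl | rfl <;> rcases ht' with rfl | rfl <;> simp
    · simp only [Function.comp, h, h', Prod.mk.injEq]; constructor <;> ring

theorem iso_inv {f : Cell → Cell} (hf : IsIso f) :
    ∃ g, IsIso g ∧ (∀ p, g (f p) = p) ∧ ∀ p, f (g p) = p := by
  obtain ⟨s, t, u, v, hs, ht, h⟩ := hf
  have hs2 : s * s = 1 := by rcases hs with rfl | rfl <;> norm_num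
  have ht2 : t * t = 1 := by rcases ht with rfl | rfl <;> norm_num
  rcases h with h | h
  · refine ⟨fun p => (s * p.1 + -(s * u), t * p.2 + -(t * v)), ⟨s, t, _, _, hs, ht, Or.inl fun p => rfl⟩,
      fun p => ?_, fun p => ?_⟩
    · rw [h]
      refine Prod.ext ?_ ?_
      · show s * (s * p.1 + u) + -(s * u) = p.1
        linear_combination p.1 * hs2
      · show t * (t * p.2 + v) + -(t * v) = p.2
        linear_combination p.2 * ht2
    · rw [h]
      refine Prod.ext ?_ ?_
      · show s * (s * p.1 + -(s * u)) + u = p.1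
        linear_combination (p.1 - u) * hs2
      · show t * (t * p.2 + -(t * v)) + v = p.2
        linear_combination (p.2 - v) * ht2
  · refine ⟨fun p => (t * p.2 + -(t * v), s * p.1 + -(s * u)), ⟨t, s, _, _, ht, hs, Or.inr fun p => rfl⟩,
      fun p => ?_, fun p => ?_⟩
    · rw [h]
      refine Prod.ext ?_ ?_
      · show t * (t * p.1 + v) + -(t * v) = p.1
        linear_combination p.1 * ht2
      · show s * (s * p.2 + u) + -(s * u) = p.2
        linear_combination p.2 * hs2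
    · rw [h]
      refine Prod.ext ?_ ?_
      · show s * (s * p.1 + -(s * u)) + u = p.1
        linear_combination (p.1 - u) * hs2
      · show t * (t * p.2 + -(t * v)) + v = p.2
        linear_combination (p.2 - v) * ht2

theorem iso_inj {f : Cell → Cell} (hf : IsIso f) : Function.Injective f := by
  obtain ⟨g, -, hg, -⟩ := iso_inv hf
  exact Function.LeftInverse.injective hg

theorem copy_card {M N : Finset Cell} (h : IsCopy M N) : N.card = M.card := by
  obtain ⟨f, hf, rfl⟩ := h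
  exact Finset.card_image_of_injective _ (iso_inj hf)

theorem copy_copy {M N N' : Finset Cell} (h : IsCopy M N) (h' : IsCopy M N') : IsCopy N N' := by
  obtain ⟨f, hf, rfl⟩ := h
  obtain ⟨f', hf', rfl⟩ := h'
  obtain ⟨g, hg, hg1, -⟩ := iso_inv hf
  refine ⟨f' ∘ g, iso_comp hg hf', ?_⟩
  rw [Finset.image_image]
  congr 1
  funext p
  simp [hg1]

theorem corner_of_image {M : Finset Cell} {f : Cell → Cell} (hf : IsIso f) {p : Cell} (hp : p ∈ M)
    (h : IsCorner (M.image f) (f p)) : IsCorner M p := by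
  obtain ⟨-, h1, h2⟩ := h
  simp only [Finset.forall_mem_image] at h1 h2
  obtain ⟨s, t, u, v, hs, ht, h⟩ := hf
  refine ⟨hp, ?_⟩
  rcases h with h | h
  · simp only [h] at h1 h2
    constructor
    · rcases hs with rfl | rfl <;> rcases h1 with h1 | h1
      · exact Or.inl fun q hq => by have := h1 hq; omega
      · exact Or.inr fun q hq => by have := h1 hq; omega
      · exact Or.inr fun q hq => by have := h1 hq; omega
      · exact Or.inl fun q hq => by have := h1 hq; omega
    · rcases ht with rfl | rfl <;> rcases h2 with h2 | h2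
      · exact Or.inl fun q hq => by have := h2 hq; omega
      · exact Or.inr fun q hq => by have := h2 hq; omega
      · exact Or.inr fun q hq => by have := h2 hq; omega
      · exact Or.inl fun q hq => by have := h2 hq; omega
  · simp only [h] at h1 h2
    constructor
    · rcases ht with rfl | rfl <;> rcases h2 with h2 | h2
      · exact Or.inl fun q hq => by have := h2 hq; omega
      · exact Or.inr fun q hq => by have := h2 hq; omega
      · exact Or.inr fun q hq => by have := h2 hq; omega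
      · exact Or.inl fun q hq => by have := h2 hq; omega
    · rcases hs with rfl | rfl <;> rcases h1 with h1 | h1
      · exact Or.inl fun q hq => by have := h1 hq; omega
      · exact Or.inr fun q hq => by have := h1 hq; omega
      · exact Or.inr fun q hq => by have := h1 hq; omega
      · exact Or.inl fun q hq => by have := h1 hq; omega

theorem short_copy {k : ℕ} {M N : Finset Cell} (h : Short k M) (hN : IsCopy M N) : Short k N := by
  obtain ⟨f, hf, rfl⟩ := hN
  intro p q hp hq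
  obtain ⟨p, hp', rfl⟩ := Finset.mem_image.1 hp.1
  obtain ⟨q, hq', rfl⟩ := Finset.mem_image.1 hq.1
  have hp2 := corner_of_image hf hp' hp
  have hq2 := corner_of_image hf hq' hq
  have h1 := h p q hp2 hq2
  have h2 := h q p hq2 hp2
  obtain ⟨s, t, u, v, hs, ht, hh⟩ := hf
  rcases hh with hh | hh <;> simp only [hh] <;> rcases hs with rfl | rfl <;>
    rcases ht with rfl | rfl <;> omega

theorem trans_copy {M N : Finset Cell} (h : Trans M) (hN : IsCopy M N) : Trans N := by
  obtain ⟨f, hf, rfl⟩ := hN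
  intro p q hp hq
  obtain ⟨p, hp', rfl⟩ := Finset.mem_image.1 hp.1
  obtain ⟨q, hq', rfl⟩ := Finset.mem_image.1 hq.1
  obtain ⟨g, hg, hg1, hg2⟩ := h p q (corner_of_image hf hp' hp) (corner_of_image hf hq' hq)
  obtain ⟨f', hf', hf1, -⟩ := iso_inv hf
  refine ⟨f ∘ (g ∘ f'), iso_comp (iso_comp hf' hg) hf, ?_, ?_⟩
  · rw [Finset.image_image]
    have : (f ∘ (g ∘ f')) ∘ f = f ∘ g := by
      funext x; simp [hf1]
    rw [this, ← Finset.image_image, hg1]
  · simp [hf1, hg2]

theorem to_corner {N N' : Finset Cell} (hG : Trans N) (hc : IsCopy N N') {c c' : Cell}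
    (h : IsCorner N c) (h' : IsCorner N' c') : ∃ f, IsIso f ∧ N' = N.image f ∧ f c = c' := by
  obtain ⟨f, hf, rfl⟩ := hc
  obtain ⟨p, hp, rfl⟩ := Finset.mem_image.1 h'.1
  obtain ⟨g, hg, hg1, hg2⟩ := hG c p h (corner_of_image hf hp h')
  refine ⟨f ∘ g, iso_comp hg hf, ?_, ?_⟩
  · rw [← Finset.image_image, hg1]
  · simp [hg2]

theorem mem_Sq {k : ℕ} {p : Cell} :
    p ∈ Sq k ↔ (0 ≤ p.1 ∧ p.1 < 2 * k) ∧ (0 ≤ p.2 ∧ p.2 < 2 * k) := by
  simp [Sq]

theorem form1 {k : ℕ} {N : Finset Cell} {f : Cell → Cell} (hf : IsIso f)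
    (h0 : f (0, 0) = (2 * (k : ℤ) - 1, 0)) (h1 : ∀ p ∈ N, p ∈ Sq k) (h2 : ∀ p ∈ N, f p ∈ Sq k) :
    (∀ p ∈ N, f p = (2 * (k : ℤ) - 1 - p.1, p.2)) ∨ (∀ p ∈ N, f p = (2 * (k : ℤ) - 1 - p.2, p.1)) := by
  obtain ⟨s, t, u, v, hs, ht, h⟩ := hf
  simp only [mem_Sq] at h1 h2
  rcases h with h | h
  · left
    intro p hp
    have a := h1 p hp
    have b := h2 p hp
    simp only [h, Prod.mk.injEq] at h0 b ⊢
    rcases hs with rfl | rfl <;> rcases ht with rfl | rfl <;> omega
  · right
    intro p hp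
    have a := h1 p hp
    have b := h2 p hp
    simp only [h, Prod.mk.injEq] at h0 b ⊢
    rcases hs with rfl | rfl <;> rcases ht with rfl | rfl <;> omega

theorem form2 {k : ℕ} {N : Finset Cell} {f : Cell → Cell} (hf : IsIso f)
    (h0 : f (0, 0) = (2 * (k : ℤ) - 1, 2 * (k : ℤ) - 1)) (h1 : ∀ p ∈ N, p ∈ Sq k) (h2 : ∀ p ∈ N, f p ∈ Sq k) :
    (∀ p ∈ N, f p = (2 * (k : ℤ) - 1 - p.1, 2 * (k : ℤ) - 1 - p.2)) ∨
      (∀ p ∈ N, f p = (2 * (k : ℤ) - 1 - p.2, 2 * (k : ℤ) - 1 - p.1)) := by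
  obtain ⟨s, t, u, v, hs, ht, h⟩ := hf
  simp only [mem_Sq] at h1 h2
  rcases h with h | h
  · left
    intro p hp
    have a := h1 p hp
    have b := h2 p hp
    simp only [h, Prod.mk.injEq] at h0 b ⊢
    rcases hs with rfl | rfl <;> rcases ht with rfl | rfl <;> omega
  · right
    intro p hp
    have a := h1 p hp
    have b := h2 p hp
    simp only [h, Prod.mk.injEq] at h0 b ⊢
    rcases hs with rfl | rfl <;> rcases ht with rfl | rfl <;> omega

theorem form3 {k : ℕ} {N : Finset Cell} {f : Cell → Cell} (hf : IsIso f)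
    (h0 : f (0, 0) = (0, 2 * (k : ℤ) - 1)) (h1 : ∀ p ∈ N, p ∈ Sq k) (h2 : ∀ p ∈ N, f p ∈ Sq k) :
    (∀ p ∈ N, f p = (p.1, 2 * (k : ℤ) - 1 - p.2)) ∨ (∀ p ∈ N, f p = (p.2, 2 * (k : ℤ) - 1 - p.1)) := by
  obtain ⟨s, t, u, v, hs, ht, h⟩ := hf
  simp only [mem_Sq] at h1 h2
  rcases h with h | h
  · left
    intro p hp
    have a := h1 p hp
    have b := h2 p hp
    simp only [h, Prod.mk.injEq] at h0 b ⊢
    rcases hs with rfl | rfl <;> rcases ht with rfl | rfl <;> omega
  · right
    intro p hp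
    have a := h1 p hp
    have b := h2 p hp
    simp only [h, Prod.mk.injEq] at h0 b ⊢
    rcases hs with rfl | rfl <;> rcases ht with rfl | rfl <;> omega

theorem sub_of_tiling {M R : Finset Cell} {T : Finset (Finset Cell)} (hT : Tiling M R T)
    {N : Finset Cell} (hN : N ∈ T) {p : Cell} (hp : p ∈ N) : p ∈ R := by
  rw [← hT.2.2]
  exact Finset.mem_biUnion.2 ⟨N, hN, hp⟩

theorem half {k : ℕ} (hk : 1 ≤ k) {M : Finset Cell} (hcard : M.card = k ^ 2)
    (hmin : MinimalRect M (Sq k)) {T : Finset (Finset Cell)} (hT : Tiling M (Sq k) T)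
    {A B : Finset Cell} (hA : A ∈ T) (hB : B ∈ T) (hAB : A ≠ B) {H H' : Finset Cell}
    (hH : IsRect H) (hH' : IsRect H') (hd : Disjoint H H') (hu : H ∪ H' = Sq k)
    (hc : H.card = 2 * k ^ 2) (hAH : A ⊆ H) (hBH : B ⊆ H) : False := by
  have hAB' : Disjoint A B := hT.2.1 A hA B hB hAB
  have h1 : A ∪ B = H := by
    apply Finset.eq_of_subset_of_card_le (Finset.union_subset hAH hBH)
    rw [Finset.card_union_of_disjoint hAB', copy_card (hT.1 A hA), copy_card (hT.1 B hB), hcard, hc]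
    omega
  apply hmin.2.2
  have hk2 : 0 < k ^ 2 := by positivity
  have hne : H ≠ H' := by
    rintro rfl
    rw [Finset.disjoint_self_iff_empty] at hd
    rw [hd] at hc
    simp at hc
    omega
  refine ⟨{H, H'}, ?_, ?_, ?_, ?_⟩
  · rw [Finset.card_pair hne]
  · intro R hR
    rw [Finset.mem_insert, Finset.mem_singleton] at hR
    rcases hR with rfl | rfl
    · refine ⟨hH, {A, B}, ?_, ?_, ?_⟩
      · intro N hN
        rw [Finset.mem_insert, Finset.mem_singleton] at hN
        rcases hN with rfl | rfl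
        · exact hT.1 _ hA
        · exact hT.1 _ hB
      · intro N hN N' hN' hNN
        rw [Finset.mem_insert, Finset.mem_singleton] at hN hN'
        apply hT.2.1 _ _ _ _ hNN
        · rcases hN with rfl | rfl <;> assumption
        · rcases hN' with rfl | rfl <;> assumption
      · rw [Finset.biUnion_insert, Finset.singleton_biUnion]
        exact h1
    · refine ⟨hH', T.filter (fun N => N ≠ A ∧ N ≠ B), ?_, ?_, ?_⟩
      · intro N hN
        exact hT.1 _ (Finset.mem_filter.1 hN).1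
      · intro N hN N' hN' hNN
        exact hT.2.1 _ (Finset.mem_filter.1 hN).1 _ (Finset.mem_filter.1 hN').1 hNN
      · ext x
        rw [Finset.mem_biUnion]
        constructor
        · rintro ⟨N, hN, hx⟩
          rw [Finset.mem_filter] at hN
          have hx1 : x ∈ Sq k := sub_of_tiling hT hN.1 hx
          rw [← hu, Finset.mem_union] at hx1
          rcases hx1 with hx1 | hx1
          · exfalso
            rw [← h1, Finset.mem_union] at hx1
            rcases hx1 with hx1 | hx1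
            · exact (Finset.disjoint_left.1 (hT.2.1 N hN.1 A hA hN.2.1)) hx hx1
            · exact (Finset.disjoint_left.1 (hT.2.1 N hN.1 B hB hN.2.2)) hx hx1
          · exact hx1
        · intro hx
          have hx1 : x ∈ Sq k := by rw [← hu, Finset.mem_union]; exact Or.inr hx
          rw [← hT.2.2, Finset.mem_biUnion] at hx1
          obtain ⟨N, hN, hxN⟩ := hx1
          refine ⟨N, Finset.mem_filter.2 ⟨hN, ?_, ?_⟩, hxN⟩
          · rintro rfl
            exact (Finset.disjoint_left.1 hd) (hAH hxN) hx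
          · rintro rfl
            exact (Finset.disjoint_left.1 hd) (hBH hxN) hx
  · intro R hR R' hR' hRR
    rw [Finset.mem_insert, Finset.mem_singleton] at hR hR'
    rcases hR with rfl | rfl <;> rcases hR' with rfl | rfl
    · exact absurd rfl hRR
    · exact hd
    · exact hd.symm
    · exact absurd rfl hRR
  · rw [Finset.biUnion_insert, Finset.singleton_biUnion]
    exact hu

theorem left_half {k : ℕ} (hk : 1 ≤ k) {N : Finset Cell}
    (hN : ∀ p ∈ N, ∀ q ∈ N, Relation.ReflTransGen (fun a b => b ∈ N ∧ Adj a b) p q)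
    (h0 : ((0, 0) : Cell) ∈ N) (hd : ∀ p ∈ N, ((2 * (k : ℤ) - 1 - p.1, p.2) : Cell) ∉ N) :
    ∀ p ∈ N, p.1 < k := by
  intro p hp
  have key : ∀ q : Cell, Relation.ReflTransGen (fun a b => b ∈ N ∧ Adj a b) (0, 0) q →
      q ∈ N ∧ q.1 < k := by
    intro q hq
    induction hq with
    | refl => exact ⟨h0, by show (0 : ℤ) < k; omega⟩
    | @tail b c hab hbc ih =>
      refine ⟨hbc.1, ?_⟩
      by_contra hcon
      have hadj := hbc.2
      unfold Adj at hadj
      apply hd c hbc.1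
      have e : ((2 * (k : ℤ) - 1 - c.1, c.2) : Cell) = b := by
        refine Prod.ext ?_ ?_
        · show 2 * (k : ℤ) - 1 - c.1 = b.1
          have := ih.2
          omega
        · show c.2 = b.2
          have := ih.2
          omega
      rw [e]
      exact ih.1
  exact (key p (hN _ h0 p hp)).2

theorem low_half {k : ℕ} (hk : 1 ≤ k) {N : Finset Cell}
    (hN : ∀ p ∈ N, ∀ q ∈ N, Relation.ReflTransGen (fun a b => b ∈ N ∧ Adj a b) p q)
    (h0 : ((0, 0) : Cell) ∈ N) (hd : ∀ p ∈ N, ((p.1, 2 * (k : ℤ) - 1 - p.2) : Cell) ∉ N) :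
    ∀ p ∈ N, p.2 < k := by
  intro p hp
  have key : ∀ q : Cell, Relation.ReflTransGen (fun a b => b ∈ N ∧ Adj a b) (0, 0) q →
      q ∈ N ∧ q.2 < k := by
    intro q hq
    induction hq with
    | refl => exact ⟨h0, by show (0 : ℤ) < k; omega⟩
    | @tail b c hab hbc ih =>
      refine ⟨hbc.1, ?_⟩
      by_contra hcon
      have hadj := hbc.2
      unfold Adj at hadj
      apply hd c hbc.1
      have e : ((c.1, 2 * (k : ℤ) - 1 - c.2) : Cell) = b := by
        refine Prod.ext ?_ ?_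
        · show c.1 = b.1
          have := ih.2
          omega
        · show 2 * (k : ℤ) - 1 - c.2 = b.2
          have := ih.2
          omega
      rw [e]
      exact ih.1
  exact (key p (hN _ h0 p hp)).2

theorem conn_copy {M N : Finset Cell} (hM : Polyomino M) (hN : IsCopy M N) :
    ∀ p ∈ N, ∀ q ∈ N, Relation.ReflTransGen (fun a b => b ∈ N ∧ Adj a b) p q := by
  obtain ⟨f, hf, rfl⟩ := hN
  intro p hp q hq
  obtain ⟨p, hp', rfl⟩ := Finset.mem_image.1 hp
  obtain ⟨q, hq', rfl⟩ := Finset.mem_image.1 hq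
  refine Relation.ReflTransGen.lift f ?_ p q (hM.2 p hp' q hq')
  rintro a b ⟨hb, hab⟩
  refine ⟨Finset.mem_image_of_mem f hb, ?_⟩
  obtain ⟨s, t, u, v, hs, ht, h⟩ := hf
  unfold Adj at hab ⊢
  rcases h with h | h <;> simp only [h] <;> rcases hs with rfl | rfl <;>
    rcases ht with rfl | rfl <;> omega

theorem card_half {k : ℕ} {a b c d : ℤ} (h : (c - a) * (d - b) = 2 * (k : ℤ) ^ 2) (h1 : a ≤ c)
    (h2 : b ≤ d) : (Ico a c ×ˢ Ico b d).card = 2 * k ^ 2 := by
  rw [Finset.card_product, Int.card_Ico, Int.card_Ico]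
  have : (((c - a).toNat * (d - b).toNat : ℕ) : ℤ) = ((2 * k ^ 2 : ℕ) : ℤ) := by
    push_cast
    rw [Int.toNat_of_nonneg (by omega), Int.toNat_of_nonneg (by omega), h]
  exact_mod_cast this

theorem next {k : ℕ} (hk : 1 ≤ k) {M : Finset Cell} (hM : Polyomino M) (hcard : M.card = k ^ 2)
    (hmin : MinimalRect M (Sq k)) (hS : Short k M) (hG : Trans M) {T : Finset (Finset Cell)}
    (hT : Tiling M (Sq k) T) {N0 N1 : Finset Cell} (h0 : N0 ∈ T) (h1 : N1 ∈ T)
    (c0 : ((0, 0) : Cell) ∈ N0) (c1 : ((2 * (k : ℤ) - 1, 0) : Cell) ∈ N1) :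
    N1 = N0.image (rot k) := by
  have hsub : ∀ N ∈ T, ∀ p ∈ N, p ∈ Sq k := fun N hN p hp => sub_of_tiling hT hN hp
  have hbd : ∀ N ∈ T, ∀ p ∈ N, (0 ≤ p.1 ∧ p.1 < 2 * k) ∧ (0 ≤ p.2 ∧ p.2 < 2 * k) :=
    fun N hN p hp => mem_Sq.1 (hsub N hN p hp)
  have ex : ∀ p : Cell, p ∈ Sq k → ∃ N ∈ T, p ∈ N := by
    intro p hp
    rw [← hT.2.2, Finset.mem_biUnion] at hp
    exact hp
  obtain ⟨N2, h2, c2⟩ := ex (2 * (k : ℤ) - 1, 2 * (k : ℤ) - 1) (by
    rw [mem_Sq]; show (0 ≤ 2 * (k : ℤ) - 1 ∧ 2 * (k : ℤ) - 1 < 2 * k) ∧ _; omega)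
  obtain ⟨N3, h3, c3⟩ := ex (0, 2 * (k : ℤ) - 1) (by
    rw [mem_Sq]; show (0 ≤ (0 : ℤ) ∧ (0 : ℤ) < 2 * k) ∧ (0 ≤ 2 * (k : ℤ) - 1 ∧ 2 * (k : ℤ) - 1 < 2 * k); omega)
  -- the corners
  have k0 : IsCorner N0 (0, 0) := ⟨c0, Or.inl fun q hq => (hbd _ h0 q hq).1.1,
    Or.inl fun q hq => (hbd _ h0 q hq).2.1⟩
  have k1 : IsCorner N1 (2 * (k : ℤ) - 1, 0) := ⟨c1, Or.inr fun q hq => by
    have := hbd _ h1 q hq; show q.1 ≤ 2 * (k : ℤ) - 1; omega,
    Or.inl fun q hq => (hbd _ h1 q hq).2.1⟩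
  have k2 : IsCorner N2 (2 * (k : ℤ) - 1, 2 * (k : ℤ) - 1) := ⟨c2, Or.inr fun q hq => by
    have := hbd _ h2 q hq; show q.1 ≤ 2 * (k : ℤ) - 1; omega, Or.inr fun q hq => by
    have := hbd _ h2 q hq; show q.2 ≤ 2 * (k : ℤ) - 1; omega⟩
  have k3 : IsCorner N3 (0, 2 * (k : ℤ) - 1) := ⟨c3, Or.inl fun q hq => (hbd _ h3 q hq).1.1,
    Or.inr fun q hq => by have := hbd _ h3 q hq; show q.2 ≤ 2 * (k : ℤ) - 1; omega⟩
  have hS0 := short_copy hS (hT.1 _ h0)
  have hS1 := short_copy hS (hT.1 _ h1)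
  have hS2 := short_copy hS (hT.1 _ h2)
  have n01 : N0 ≠ N1 := by
    rintro rfl
    have := (hS0 _ _ k1 k0).1
    simp at this
  have n03 : N0 ≠ N3 := by
    rintro rfl
    have := (hS0 _ _ k3 k0).2
    simp at this
  have n12 : N1 ≠ N2 := by
    rintro rfl
    have := (hS1 _ _ k2 k1).2
    simp at this
  have n23 : N2 ≠ N3 := by
    rintro rfl
    have := (hS2 _ _ k2 k3).1
    simp at this
  obtain ⟨f1, i1, e1, g1⟩ := to_corner (trans_copy hG (hT.1 _ h0)) (copy_copy (hT.1 _ h0) (hT.1 _ h1)) k0 k1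
  obtain ⟨f2, i2, e2, g2⟩ := to_corner (trans_copy hG (hT.1 _ h0)) (copy_copy (hT.1 _ h0) (hT.1 _ h2)) k0 k2
  obtain ⟨f3, i3, e3, g3⟩ := to_corner (trans_copy hG (hT.1 _ h0)) (copy_copy (hT.1 _ h0) (hT.1 _ h3)) k0 k3
  have F1 := form1 (N := N0) i1 g1 (hsub _ h0) (fun p hp => hsub _ h1 _ (by rw [e1]; exact Finset.mem_image_of_mem _ hp))
  have F2 := form2 (N := N0) i2 g2 (hsub _ h0) (fun p hp => hsub _ h2 _ (by rw [e2]; exact Finset.mem_image_of_mem _ hp))
  have F3 := form3 (N := N0) i3 g3 (hsub _ h0) (fun p hp => hsub _ h3 _ (by rw [e3]; exact Finset.mem_image_of_mem _ hp))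
  rcases F1 with F1 | F1
  · exfalso
    have hconn := conn_copy hM (hT.1 _ h0)
    have hd01 := hT.2.1 _ h0 _ h1 n01
    have hL : ∀ p ∈ N0, p.1 < k := by
      apply left_half hk hconn c0
      intro p hp hq
      apply Finset.disjoint_left.1 hd01 hq
      rw [e1, ← F1 p hp]
      exact Finset.mem_image_of_mem _ hp
    have hR : ∀ q ∈ N1, (k : ℤ) ≤ q.1 := by
      intro q hq
      rw [e1] at hq
      obtain ⟨p, hp, rfl⟩ := Finset.mem_image.1 hq
      rw [F1 p hp]
      have := hL p hp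
      show (k : ℤ) ≤ 2 * k - 1 - p.1
      omega
    have rB : IsRect (Ico (0 : ℤ) (2 * k) ×ˢ Ico (0 : ℤ) k) := ⟨_, _, _, _, by omega, by omega, rfl⟩
    have rT : IsRect (Ico (0 : ℤ) (2 * k) ×ˢ Ico (k : ℤ) (2 * k)) := ⟨_, _, _, _, by omega, by omega, rfl⟩
    have rL : IsRect (Ico (0 : ℤ) k ×ˢ Ico (0 : ℤ) (2 * k)) := ⟨_, _, _, _, by omega, by omega, rfl⟩
    have rR : IsRect (Ico (k : ℤ) (2 * k) ×ˢ Ico (0 : ℤ) (2 * k)) := ⟨_, _, _, _, by omega, by omega, rfl⟩
    have dBT : Disjoint (Ico (0 : ℤ) (2 * k) ×ˢ Ico (0 : ℤ) k) (Ico (0 : ℤ) (2 * k) ×ˢ Ico (k : ℤ) (2 * k)) := by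
      rw [Finset.disjoint_left]
      intro p hp hq
      simp only [Finset.mem_product, Finset.mem_Ico] at hp hq
      omega
    have dRL : Disjoint (Ico (k : ℤ) (2 * k) ×ˢ Ico (0 : ℤ) (2 * k)) (Ico (0 : ℤ) k ×ˢ Ico (0 : ℤ) (2 * k)) := by
      rw [Finset.disjoint_left]
      intro p hp hq
      simp only [Finset.mem_product, Finset.mem_Ico] at hp hq
      omega
    have uBT : (Ico (0 : ℤ) (2 * k) ×ˢ Ico (0 : ℤ) k) ∪ (Ico (0 : ℤ) (2 * k) ×ˢ Ico (k : ℤ) (2 * k)) = Sq k := by
      ext p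
      simp only [Sq, Finset.mem_union, Finset.mem_product, Finset.mem_Ico]
      omega
    have uRL : (Ico (k : ℤ) (2 * k) ×ˢ Ico (0 : ℤ) (2 * k)) ∪ (Ico (0 : ℤ) k ×ˢ Ico (0 : ℤ) (2 * k)) = Sq k := by
      ext p
      simp only [Sq, Finset.mem_union, Finset.mem_product, Finset.mem_Ico]
      omega
    rcases F3 with F3 | F3
    · have hd03 := hT.2.1 _ h0 _ h3 n03
      have hB : ∀ p ∈ N0, p.2 < k := by
        apply low_half hk hconn c0
        intro p hp hq
        apply Finset.disjoint_left.1 hd03 hq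
        rw [e3, ← F3 p hp]
        exact Finset.mem_image_of_mem _ hp
      refine half hk hcard hmin hT h0 h1 n01 rB rT dBT uBT (card_half (by ring) (by omega) (by omega)) ?_ ?_
      · intro p hp
        have a := hbd _ h0 p hp
        have b := hB p hp
        simp only [Finset.mem_product, Finset.mem_Ico]
        omega
      · intro q hq
        have a := hbd _ h1 q hq
        simp only [Finset.mem_product, Finset.mem_Ico]
        rw [e1] at hq
        obtain ⟨p, hp, rfl⟩ := Finset.mem_image.1 hq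
        have b := hB p hp
        rw [F1 p hp] at a ⊢
        simp only at a ⊢
        omega
    · have hT3 : ∀ q ∈ N3, (k : ℤ) ≤ q.2 := by
        intro q hq
        rw [e3] at hq
        obtain ⟨p, hp, rfl⟩ := Finset.mem_image.1 hq
        rw [F3 p hp]
        have := hL p hp
        show (k : ℤ) ≤ 2 * k - 1 - p.1
        omega
      rcases F2 with F2 | F2
      · refine half hk hcard hmin hT h1 h2 n12 rR rL dRL uRL (card_half (by ring) (by omega) (by omega)) ?_ ?_
        · intro q hq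
          have a := hbd _ h1 q hq
          have b := hR q hq
          simp only [Finset.mem_product, Finset.mem_Ico]
          omega
        · intro q hq
          have a := hbd _ h2 q hq
          simp only [Finset.mem_product, Finset.mem_Ico]
          rw [e2] at hq
          obtain ⟨p, hp, rfl⟩ := Finset.mem_image.1 hq
          have b := hL p hp
          rw [F2 p hp] at a ⊢
          simp only at a ⊢
          omega
      · refine half hk hcard hmin hT h2 h3 n23 rT rB dBT.symm (by rw [Finset.union_comm]; exact uBT)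
          (card_half (by ring) (by omega) (by omega)) ?_ ?_
        · intro q hq
          have a := hbd _ h2 q hq
          simp only [Finset.mem_product, Finset.mem_Ico]
          rw [e2] at hq
          obtain ⟨p, hp, rfl⟩ := Finset.mem_image.1 hq
          have b := hL p hp
          rw [F2 p hp] at a ⊢
          simp only at a ⊢
          omega
        · intro q hq
          have a := hbd _ h3 q hq
          have b := hT3 q hq
          simp only [Finset.mem_product, Finset.mem_Ico]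
          omega
  · rw [e1]
    apply Finset.image_congr
    intro p hp
    exact F1 p hp

/-- The inverse rotation. -/
def rot' (k : ℕ) (p : Cell) : Cell := (p.2, 2 * (k : ℤ) - 1 - p.1)

theorem rot_rot' (k : ℕ) (p : Cell) : rot k (rot' k p) = p := by
  simp [rot, rot']

theorem rot'_rot (k : ℕ) (p : Cell) : rot' k (rot k p) = p := by
  simp [rot, rot']

theorem iso_rot' (k : ℕ) : IsIso (rot' k) :=
  ⟨1, -1, 0, 2 * (k : ℤ) - 1, Or.inl rfl, Or.inr rfl, Or.inr fun p => by
    refine Prod.ext ?_ ?_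
    · show p.2 = 1 * p.2 + 0
      ring
    · show 2 * (k : ℤ) - 1 - p.1 = -1 * p.1 + (2 * (k : ℤ) - 1)
      ring⟩

theorem rot_tiling {k : ℕ} {M : Finset Cell} {T : Finset (Finset Cell)}
    (hT : Tiling M (Sq k) T) : Tiling M (Sq k) (T.image fun N => N.image (rot' k)) := by
  refine ⟨?_, ?_, ?_⟩
  · intro A hA
    obtain ⟨N, hN, rfl⟩ := Finset.mem_image.1 hA
    obtain ⟨f, hf, rfl⟩ := hT.1 N hN
    exact ⟨rot' k ∘ f, iso_comp hf (iso_rot' k), by rw [Finset.image_image]⟩
  · intro A hA A' hA' hne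
    obtain ⟨N, hN, rfl⟩ := Finset.mem_image.1 hA
    obtain ⟨N', hN', rfl⟩ := Finset.mem_image.1 hA'
    have hne' : N ≠ N' := fun h => hne (by rw [h])
    have := hT.2.1 N hN N' hN' hne'
    exact (Finset.disjoint_image (iso_inj (iso_rot' k))).2 this
  · ext p
    rw [Finset.mem_biUnion]
    constructor
    · rintro ⟨A, hA, hp⟩
      obtain ⟨N, hN, rfl⟩ := Finset.mem_image.1 hA
      obtain ⟨q, hq, rfl⟩ := Finset.mem_image.1 hp
      have := mem_Sq.1 (sub_of_tiling hT hN hq)
      rw [mem_Sq]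
      simp only [rot']
      omega
    · intro hp
      have hp' := mem_Sq.1 hp
      have h1 : rot k p ∈ Sq k := by
        rw [mem_Sq]
        simp only [rot]
        omega
      rw [← hT.2.2, Finset.mem_biUnion] at h1
      obtain ⟨N, hN, hpN⟩ := h1
      exact ⟨N.image (rot' k), Finset.mem_image_of_mem _ hN,
        Finset.mem_image.2 ⟨_, hpN, rot'_rot k p⟩⟩

theorem shift {k : ℕ} {M : Finset Cell} {c : Cell}
    (h : ∀ T, Tiling M (Sq k) T → ∀ N ∈ T, ∀ N' ∈ T, c ∈ N → rot k c ∈ N' → N' = N.image (rot k)) :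
    ∀ T, Tiling M (Sq k) T → ∀ N ∈ T, ∀ N' ∈ T, rot k c ∈ N → rot k (rot k c) ∈ N' →
      N' = N.image (rot k) := by
  intro T hT N hN N' hN' hc hc'
  have := h _ (rot_tiling hT) (N.image (rot' k)) (Finset.mem_image_of_mem _ hN)
    (N'.image (rot' k)) (Finset.mem_image_of_mem _ hN')
    (Finset.mem_image.2 ⟨_, hc, rot'_rot k c⟩) (Finset.mem_image.2 ⟨_, hc', rot'_rot k _⟩)
  have h2 : (N.image (rot' k)).image (rot k) = N := by
    rw [Finset.image_image]
    have : rot k ∘ rot' k = id := by funext p; exact rot_rot' k p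
    rw [this, Finset.image_id]
  rw [h2] at this
  rw [← this, Finset.image_image]
  have : rot k ∘ rot' k = id := by funext p; exact rot_rot' k p
  rw [this, Finset.image_id]

/-- The main theorem. -/
theorem main {k : ℕ} (hk : 1 ≤ k) {M : Finset Cell} (hM : Polyomino M) (hcard : M.card = k ^ 2)
    (hmin : MinimalRect M (Sq k)) (hS : Short k M) (hG : Trans M) {T : Finset (Finset Cell)}
    (hT : Tiling M (Sq k) T) : T.image (fun N => N.image (rot k)) = T := by
  have P0 : ∀ T, Tiling M (Sq k) T → ∀ N ∈ T, ∀ N' ∈ T, ((0, 0) : Cell) ∈ N →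
      rot k (0, 0) ∈ N' → N' = N.image (rot k) := by
    intro T hT N hN N' hN' h h'
    apply next hk hM hcard hmin hS hG hT hN hN' h
    have e : rot k (0, 0) = ((2 * (k : ℤ) - 1, 0) : Cell) := by simp [rot]
    rw [← e]
    exact h'
  have P1 := shift P0
  have P2 := shift P1
  have P3 := shift P2
  have hsub : ∀ N ∈ T, ∀ p ∈ N, p ∈ Sq k := fun N hN p hp => sub_of_tiling hT hN hp
  have hbd : ∀ N ∈ T, ∀ p ∈ N, (0 ≤ p.1 ∧ p.1 < 2 * k) ∧ (0 ≤ p.2 ∧ p.2 < 2 * k) :=
    fun N hN p hp => mem_Sq.1 (hsub N hN p hp)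
  have ex : ∀ p : Cell, p ∈ Sq k → ∃ N ∈ T, p ∈ N := by
    intro p hp
    rw [← hT.2.2, Finset.mem_biUnion] at hp
    exact hp
  have q1 : rot k (0, 0) = ((2 * (k : ℤ) - 1, 0) : Cell) := by simp [rot]
  have q2 : rot k (rot k (0, 0)) = ((2 * (k : ℤ) - 1, 2 * (k : ℤ) - 1) : Cell) := by simp [rot]
  have q3 : rot k (rot k (rot k (0, 0))) = ((0, 2 * (k : ℤ) - 1) : Cell) := by simp [rot]
  have q4 : rot k (rot k (rot k (rot k (0, 0)))) = ((0, 0) : Cell) := by simp [rot]
  rw [q2, q1] at P1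
  rw [q3, q2] at P2
  rw [q4, q3] at P3
  rw [q1] at P0
  obtain ⟨N0, h0, c0⟩ := ex (0, 0) (by
    rw [mem_Sq]; show (0 ≤ (0 : ℤ) ∧ (0 : ℤ) < 2 * k) ∧ (0 ≤ (0 : ℤ) ∧ (0 : ℤ) < 2 * k); omega)
  obtain ⟨N1, h1, c1⟩ := ex (2 * (k : ℤ) - 1, 0) (by
    rw [mem_Sq]; show (0 ≤ 2 * (k : ℤ) - 1 ∧ 2 * (k : ℤ) - 1 < 2 * k) ∧ (0 ≤ (0 : ℤ) ∧ (0 : ℤ) < 2 * k); omega)
  obtain ⟨N2, h2, c2⟩ := ex (2 * (k : ℤ) - 1, 2 * (k : ℤ) - 1) (by
    rw [mem_Sq]; show (0 ≤ 2 * (k : ℤ) - 1 ∧ 2 * (k : ℤ) - 1 < 2 * k) ∧ _; omega)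
  obtain ⟨N3, h3, c3⟩ := ex (0, 2 * (k : ℤ) - 1) (by
    rw [mem_Sq]; show (0 ≤ (0 : ℤ) ∧ (0 : ℤ) < 2 * k) ∧ (0 ≤ 2 * (k : ℤ) - 1 ∧ 2 * (k : ℤ) - 1 < 2 * k); omega)
  have e1 := P0 T hT N0 h0 N1 h1 c0 c1
  have e2 := P1 T hT N1 h1 N2 h2 c1 c2
  have e3 := P2 T hT N2 h2 N3 h3 c2 c3
  have e4 := P3 T hT N3 h3 N0 h0 c3 c0
  -- the corners
  have k0 : IsCorner N0 (0, 0) := ⟨c0, Or.inl fun q hq => (hbd _ h0 q hq).1.1,
    Or.inl fun q hq => (hbd _ h0 q hq).2.1⟩
  have k1 : ∀ N ∈ T, ((2 * (k : ℤ) - 1, 0) : Cell) ∈ N → IsCorner N (2 * (k : ℤ) - 1, 0) :=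
    fun N hN c => ⟨c, Or.inr fun q hq => by
      have := hbd _ hN q hq; show q.1 ≤ 2 * (k : ℤ) - 1; omega,
      Or.inl fun q hq => (hbd _ hN q hq).2.1⟩
  have k2 : ∀ N ∈ T, ((2 * (k : ℤ) - 1, 2 * (k : ℤ) - 1) : Cell) ∈ N →
      IsCorner N (2 * (k : ℤ) - 1, 2 * (k : ℤ) - 1) :=
    fun N hN c => ⟨c, Or.inr fun q hq => by
      have := hbd _ hN q hq; show q.1 ≤ 2 * (k : ℤ) - 1; omega, Or.inr fun q hq => by
      have := hbd _ hN q hq; show q.2 ≤ 2 * (k : ℤ) - 1; omega⟩
  have k3 : ∀ N ∈ T, ((0, 2 * (k : ℤ) - 1) : Cell) ∈ N → IsCorner N (0, 2 * (k : ℤ) - 1) :=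
    fun N hN c => ⟨c, Or.inl fun q hq => (hbd _ hN q hq).1.1, Or.inr fun q hq => by
      have := hbd _ hN q hq; show q.2 ≤ 2 * (k : ℤ) - 1; omega⟩
  have hS' : ∀ N ∈ T, Short k N := fun N hN => short_copy hS (hT.1 _ hN)
  have n01 : N0 ≠ N1 := by
    rintro rfl
    have := (hS' _ h0 _ _ (k1 _ h0 c1) k0).1
    simp at this
  have n02 : N0 ≠ N2 := by
    rintro rfl
    have := (hS' _ h0 _ _ (k2 _ h0 c2) k0).1
    simp at this
  have n03 : N0 ≠ N3 := by
    rintro rfl
    have := (hS' _ h0 _ _ (k3 _ h0 c3) k0).2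
    simp at this
  have n12 : N1 ≠ N2 := by
    rintro rfl
    have := (hS' _ h1 _ _ (k2 _ h1 c2) (k1 _ h1 c1)).2
    simp at this
  have n13 : N1 ≠ N3 := by
    rintro rfl
    have := (hS' _ h1 _ _ (k1 _ h1 c1) (k3 _ h1 c3)).1
    simp at this
  have n23 : N2 ≠ N3 := by
    rintro rfl
    have := (hS' _ h2 _ _ (k2 _ h2 c2) (k3 _ h2 c3)).1
    simp at this
  have hcT : T.card * k ^ 2 = 4 * k ^ 2 := by
    have a : (T.biUnion id).card = ∑ N ∈ T, (id N).card :=
      Finset.card_biUnion fun N hN N' hN' hne => hT.2.1 N hN N' hN' hne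
    have b : ∑ N ∈ T, (id N).card = ∑ N ∈ T, k ^ 2 :=
      Finset.sum_congr rfl fun N hN => by rw [id, copy_card (hT.1 N hN), hcard]
    rw [b, Finset.sum_const, smul_eq_mul, hT.2.2] at a
    rw [← a, Sq, Finset.card_product, Int.card_Ico]
    have : (2 * (k : ℤ) - 0).toNat = 2 * k := by omega
    rw [this]
    ring
  have hk2 : 0 < k ^ 2 := by positivity
  have hc4 : T.card = 4 := Nat.eq_of_mul_eq_mul_right hk2 hcT
  have hTe : ({N0, N1, N2, N3} : Finset (Finset Cell)) = T := by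
    apply Finset.eq_of_subset_of_card_le
    · intro N hN
      simp only [Finset.mem_insert, Finset.mem_singleton] at hN
      rcases hN with rfl | rfl | rfl | rfl <;> assumption
    · rw [hc4, Finset.card_insert_of_notMem, Finset.card_insert_of_notMem,
        Finset.card_insert_of_notMem, Finset.card_singleton]
      · simpa using n23
      · simp only [Finset.mem_insert, Finset.mem_singleton, not_or]
        exact ⟨n12, n13⟩
      · simp only [Finset.mem_insert, Finset.mem_singleton, not_or]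
        exact ⟨n01, n02, n03⟩
  rw [← hTe]
  simp only [Finset.image_insert, Finset.image_singleton]
  rw [← e1, ← e2, ← e3, ← e4]
  ext N
  simp only [Finset.mem_insert, Finset.mem_singleton]
  tauto

/-- Q1 for the polyominoes `M` with `k ^ 2` cells whose symmetries act transitively on the corner
cells of `M`, no two of them at distance `2k - 1` or more in a coordinate; in particular for the
polyominoes which contain exactly one of the corner cells of their bounding boxes. -/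
theorem result :
    (∀ (k : ℕ) (_ : 1 ≤ k) (M : Finset Cell), Polyomino M → M.card = k ^ 2 →
      MinimalRect M (Sq k) → Short k M → Trans M →
      ∀ T : Finset (Finset Cell), Tiling M (Sq k) T → T.image (fun N => N.image (rot k)) = T) ∧
    (∀ (k : ℕ) (_ : 1 ≤ k) (M : Finset Cell), Polyomino M → M.card = k ^ 2 →
      MinimalRect M (Sq k) → (∀ p q : Cell, IsCorner M p → IsCorner M q → p = q) →
      ∀ T : Finset (Finset Cell), Tiling M (Sq k) T →
        T.image (fun N => N.image (rot k)) = T) := by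
  refine ⟨fun k hk M hM hc hmin hS hG T hT => main hk hM hc hmin hS hG hT,
    fun k hk M hM hc hmin h1 T hT => main hk hM hc hmin ?_ ?_ hT⟩
  · intro p q hp hq
    rw [h1 p q hp hq]
    constructor <;> omega
  · intro p q hp hq
    refine ⟨id, ⟨1, 1, 0, 0, Or.inl rfl, Or.inl rfl, Or.inl fun x => by simp⟩, Finset.image_id, ?_⟩
    exact h1 p q hp hq

end Pool.Agent.Results.MP_c42d5f_co.CornerCells
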